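import Mathlib
import Pool.Agent.Lib.Pc848f8k.Est

open MeasureTheory Set Filter Topology
open scoped ENNReal ComplexConjugate

namespace Pool.Agent.Results.MP_c848f8_an.SliceBlowupAll

/-- the open polydisk `Δ^n_ρ ⊂ ℂ^n` -/
def polydisk (n : ℕ) (ρ : ℝ) : Set (Fin n → ℂ) := {x | ∀ i, ‖x i‖ < ρ}

/-- `A^n(r,1) = Δ^n \ closure Δ^n_r` -/
def shell (n : ℕ) (r : ℝ) : Set (Fin n → ℂ) := polydisk n 1 \ closure (polydisk n r)

/-- coefficient `∂²/∂ζ_a∂ζ̄_b log (1 + ‖ζ‖²)`, at `ζ ∈ ℂ^k ⊂ ℙ^k`, of the Fubini-Study form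
`ω_FS = dd^c log (1 + ‖ζ‖²)` of `ℙ^k` -/
noncomputable def fsCoeff {k : ℕ} (ζ : Fin k → ℂ) (a b : Fin k) : ℂ :=
  ((if a = b then ((1 + ∑ i, ‖ζ i‖ ^ 2 : ℝ) : ℂ) else 0) - conj (ζ a) * ζ b) /
    (((1 + ∑ i, ‖ζ i‖ ^ 2) ^ 2 : ℝ) : ℂ)

/-- coefficient matrix, at `x`, of the form `dd^c ‖z‖² + f^* (c ω_FS)`, for `f` holomorphic with
values in `ℂ^k ⊂ ℙ^k` -/
noncomputable def metricMatrix (c : ℝ) {n k : ℕ} (f : (Fin n → ℂ) → (Fin k → ℂ))
    (x : Fin n → ℂ) : Matrix (Fin n) (Fin n) ℂ :=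
  1 + Matrix.of fun i j => (c : ℂ) * ∑ a, ∑ b, fsCoeff (f x) a b *
    fderiv ℂ f x (Pi.single i 1) a * conj (fderiv ℂ f x (Pi.single j 1) b)

/-- `Vol_{2n}(Γ_f ∩ (S × ℙ^k)) = ∫_S (dd^c ‖z‖² + f^* (c ω_FS))^n = n! ∫_S det` -/
noncomputable def graphVol (c : ℝ) {n k : ℕ} (f : (Fin n → ℂ) → (Fin k → ℂ))
    (S : Set (Fin n → ℂ)) : ℝ≥0∞ :=
  n.factorial * ∫⁻ x in S, ENNReal.ofReal (metricMatrix c f x).det.re

/-- the restriction `f_z` of `f` to `{z} × Δ^k` -/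
def slice {m k : ℕ} (f : (Fin (m + k) → ℂ) → (Fin k → ℂ)) (z : Fin m → ℂ) :
    (Fin k → ℂ) → (Fin k → ℂ) :=
  fun w => f (Fin.append z w)

/-- a holomorphic `f : Δ^{m+k} → ℂ^k ⊂ ℙ^k` lies in the class `𝓕_R` (with `n = m + k`) -/
structure MemFR (m k : ℕ) (c r R : ℝ) (f : (Fin (m + k) → ℂ) → (Fin k → ℂ)) : Prop where
  holo : DifferentiableOn ℂ f (polydisk (m + k) 1)
  vol_shell : graphVol c f (shell (m + k) r) ≤ ENNReal.ofReal R
  vol_slice_shell : ∀ z ∈ polydisk m 1, graphVol c (slice f z) (shell k r) ≤ ENNReal.ofReal R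

open Pool.Agent.Lib.Pc848f8 Pool.Agent.Lib.Pc848f8k

lemma polydisk_eq (n : ℕ) (ρ : ℝ) :
    polydisk n ρ = Set.pi univ (fun _ : Fin n => Metric.ball (0:ℂ) ρ) := by
  ext x; simp [polydisk]

lemma polydisk_one (n : ℕ) : polydisk n 1 = pd n := polydisk_eq n 1

lemma measurableSet_shell (n : ℕ) (r : ℝ) : MeasurableSet (shell n r) := by
  unfold shell
  rw [polydisk_eq]
  exact (MeasurableSet.univ_pi (fun _ => measurableSet_ball)).diff isClosed_closure.measurableSet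

lemma shell_subset (n : ℕ) (r : ℝ) : shell n r ⊆ pd n := by
  unfold shell
  rw [polydisk_one]
  exact sdiff_subset

lemma exists_of_mem_shell {n : ℕ} {r : ℝ} (hr : 0 < r) {x : Fin n → ℂ} (hx : x ∈ shell n r) :
    ∃ i, r < ‖x i‖ := by
  have h := hx.2
  rw [polydisk_eq n r, closure_pi_set, closure_ball _ hr.ne'] at h
  by_contra hc
  push Not at hc
  apply h
  intro i _
  rw [mem_closedBall_zero_iff]
  exact hc i

lemma volume_shell (n : ℕ) {r : ℝ} (hr0 : 0 < r) (hr1 : r < 1) :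
    (volume (shell n r)).toReal = Real.pi ^ n - (Real.pi * r ^ 2) ^ n := by
  have hcl : closure (polydisk n r) = Metric.closedBall (0 : Fin n → ℂ) r := by
    rw [polydisk_eq n r, closure_pi_set, closure_ball _ hr0.ne']
    ext x
    rw [mem_closedBall_zero_iff, pi_norm_le_iff_of_nonneg hr0.le]
    simp
  have hvc : volume (Metric.closedBall (0 : Fin n → ℂ) r) =
      ENNReal.ofReal ((Real.pi * r ^ 2) ^ n) := by
    rw [MeasureTheory.volume_pi_closedBall _ hr0.le]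
    simp only [Pi.zero_apply, Complex.volume_closedBall, Finset.prod_const, Finset.card_univ,
      Fintype.card_fin]
    rw [ENNReal.ofReal_pow (by positivity), mul_comm Real.pi, ENNReal.ofReal_mul (by positivity),
      ENNReal.ofReal_pow hr0.le]
    congr 2
    rw [← NNReal.coe_real_pi, ENNReal.ofReal_coe_nnreal]
  have hvo : volume (pd n) = ENNReal.ofReal (Real.pi ^ n) := by
    rw [pd_eq_ball, volume_ball_pi n one_pos]
    norm_num
  have hsub : Metric.closedBall (0 : Fin n → ℂ) r ⊆ pd n := by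
    rw [pd_eq_ball]
    exact Metric.closedBall_subset_ball hr1
  unfold shell
  rw [polydisk_one, hcl, measure_sdiff hsub Metric.isClosed_closedBall.nullMeasurableSet
    (by rw [hvc]; exact ENNReal.ofReal_ne_top), hvc, hvo,
    ← ENNReal.ofReal_sub _ (by positivity), ENNReal.toReal_ofReal]
  rw [sub_nonneg]
  apply pow_le_pow_left₀ (by positivity)
  have h1 : r ^ 2 ≤ 1 := pow_le_one₀ hr0.le hr1.le
  nlinarith [Real.pi_pos]

/-- the Euclidean volume of `A^k(r,1)` is at most that of `A^{m+k}(r,1)` -/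
lemma volume_shell_le (m k : ℕ) {r : ℝ} (hr0 : 0 < r) (hr1 : r < 1) :
    k.factorial * (volume (shell k r)).toReal ≤
      (m + k).factorial * (volume (shell (m + k) r)).toReal := by
  have hpi : 1 ≤ Real.pi := by linarith [Real.pi_gt_three]
  have h1 : (volume (shell k r)).toReal ≤ (volume (shell (m + k) r)).toReal := by
    rw [volume_shell k hr0 hr1, volume_shell (m + k) hr0 hr1]
    have hx0 : 0 ≤ r ^ 2 := by positivity
    have hx1 : r ^ 2 ≤ 1 := pow_le_one₀ hr0.le hr1.le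
    have e1 : ∀ j : ℕ, Real.pi ^ j - (Real.pi * r ^ 2) ^ j = Real.pi ^ j * (1 - (r ^ 2) ^ j) := by
      intro j
      rw [mul_pow]
      ring
    rw [e1, e1]
    apply mul_le_mul
    · exact pow_le_pow_right₀ hpi (by omega)
    · have := pow_le_pow_of_le_one hx0 hx1 (show k ≤ m + k by omega)
      linarith
    · have := pow_le_one₀ (n := k) hx0 hx1
      linarith
    · positivity
  have h2 : (k.factorial : ℝ) ≤ (m + k).factorial := by
    exact_mod_cast Nat.factorial_le (by omega)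
  exact mul_le_mul h2 h1 ENNReal.toReal_nonneg (by positivity)

/-! ### the maps -/

/-- the maps `(z, w) ↦ (g(z_0, w_0), w_1 / ε, …, w_q / ε)` -/
noncomputable def ft (p q : ℕ) (K B : ℝ) (N : ℕ) (ε : ℝ) :
    (Fin (p + 1 + (q + 1)) → ℂ) → (Fin (q + 1) → ℂ) :=
  mp (Fn K B N (Fin.castAdd (q + 1) 0) (Fin.natAdd (p + 1) 0))
    (fun i : Fin q => Fin.natAdd (p + 1) i.succ) ε

lemma castAdd_ne_natAdd {m k : ℕ} (i : Fin m) (j : Fin k) : Fin.castAdd k i ≠ Fin.natAdd m j := by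
  intro h
  have := congrArg Fin.val h
  simp only [Fin.val_castAdd, Fin.val_natAdd] at this
  have := i.isLt
  omega

lemma differentiableAt_ft (p q : ℕ) (K B : ℝ) (N : ℕ) (ε : ℝ) (x : Fin (p + 1 + (q + 1)) → ℂ)
    (hx : x ∈ pd (p + 1 + (q + 1))) : DifferentiableAt ℂ (ft p q K B N ε) x :=
  (hasFDerivAt_mp _ _ ε x _
    (differentiableAt_Fn K B N _ _ x (mem_pd.mp hx _)).hasFDerivAt).differentiableAt

lemma det_ft (p q : ℕ) {c : ℝ} (hc : 0 < c) (K B : ℝ) (N : ℕ) {ε : ℝ} (hε : 0 < ε)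
    (x : Fin (p + 1 + (q + 1)) → ℂ) (hx : x ∈ pd (p + 1 + (q + 1))) :
    (metricMatrix c (ft p q K B N ε) x).det.re =
      dens q c ε (‖Fz K B N (x (Fin.castAdd (q + 1) 0)) (x (Fin.natAdd (p + 1) 0))‖ ^ 2 +
        ‖Fw K B N (x (Fin.castAdd (q + 1) 0)) (x (Fin.natAdd (p + 1) 0))‖ ^ 2)
        (‖F K B N (x (Fin.castAdd (q + 1) 0)) (x (Fin.natAdd (p + 1) 0))‖ ^ 2)
        (∑ i : Fin q, ‖x (Fin.natAdd (p + 1) i.succ)‖ ^ 2) := by
  have ha := mem_pd.mp hx (Fin.castAdd (q + 1) 0)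
  have hab := castAdd_ne_natAdd (0 : Fin (p + 1)) (0 : Fin (q + 1))
  rw [← sum_fderiv_Fn K B N _ _ hab x ha]
  refine det_mp (Fn K B N (Fin.castAdd (q + 1) 0) (Fin.natAdd (p + 1) 0))
    (fun i : Fin q => Fin.natAdd (p + 1) i.succ) ?_ hε hc x (differentiableAt_Fn K B N _ _ x ha) ?_
  · intro i i' h
    exact Fin.succ_injective _ (Fin.natAdd_injective _ _ h)
  · intro i
    rw [fderiv_Fn K B N _ _ hab x ha, if_neg (castAdd_ne_natAdd _ _).symm, if_neg]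
    intro h
    exact Fin.succ_ne_zero i (Fin.natAdd_injective _ _ h)

lemma density_total (p q : ℕ) {c : ℝ} (hc : 0 < c) (K B : ℝ) (N : ℕ) {ε : ℝ} (hε : 0 < ε)
    (hε1 : ε ≤ 1) (x : Fin (p + 1 + (q + 1)) → ℂ) (hx : x ∈ pd (p + 1 + (q + 1))) :
    ENNReal.ofReal (metricMatrix c (ft p q K B N ε) x).det.re ≤
      1 + ENNReal.ofReal (4 * AA q c) * totb K B N q ε (x (Fin.castAdd (q + 1) 0))
        (x (Fin.natAdd (p + 1) 0)) (fun i => x (Fin.natAdd (p + 1) i.succ)) := by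
  rw [det_ft p q hc K B N hε x hx]
  refine ofReal_dens_le q hc hε hε1 (by positivity) (by positivity)
    (fun i => x (Fin.natAdd (p + 1) i.succ)) ?_
  rw [mem_pd]
  intro i
  exact mem_pd.mp hx _

lemma graphVol_total_le (p q : ℕ) {c : ℝ} (hc : 0 < c) (K B : ℝ) (N : ℕ) {ε : ℝ} (hε : 0 < ε)
    (hε1 : ε ≤ 1) (S : Set (Fin (p + 1 + (q + 1)) → ℂ)) (hS : MeasurableSet S)
    (hsub : S ⊆ pd (p + 1 + (q + 1))) (TG : ℝ≥0∞)
    (hTG : ∫⁻ z in Metric.ball (0:ℂ) 1, ∫⁻ w in Metric.ball (0:ℂ) 1, G K B N z w ≤ TG)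
    (hG : ENNReal.ofReal ε * Gint K B N ≤ 1) :
    graphVol c (ft p q K B N ε) S ≤
      (p + 1 + (q + 1)).factorial * (volume S + ENNReal.ofReal (4 * AA q c) * (volume (pd p) *
        (volume (Metric.ball (0:ℂ) 1) * volume (Metric.ball (0:ℂ) 1) * (HH q + JJ q (q + 1)) +
      HH q + JJ q (q + 2) * TG))) := by
  unfold graphVol
  gcongr
  calc ∫⁻ x in S, ENNReal.ofReal (metricMatrix c (ft p q K B N ε) x).det.re
      ≤ ∫⁻ x in S, (1 + ENNReal.ofReal (4 * AA q c) * totb K B N q ε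
        (x (Fin.castAdd (q + 1) 0)) (x (Fin.natAdd (p + 1) 0))
          (fun i => x (Fin.natAdd (p + 1) i.succ))) :=
        setLIntegral_mono' hS (fun x hx => density_total p q hc K B N hε hε1 x (hsub hx))
    _ = volume S + ENNReal.ofReal (4 * AA q c) * ∫⁻ x in S, totb K B N q ε
        (x (Fin.castAdd (q + 1) 0)) (x (Fin.natAdd (p + 1) 0))
          (fun i => x (Fin.natAdd (p + 1) i.succ)) := by
        rw [lintegral_add_left measurable_const, setLIntegral_const, one_mul,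
          lintegral_const_mul' _ _ ENNReal.ofReal_ne_top]
    _ ≤ _ := by
        gcongr
        refine (lintegral_mono_set hsub).trans ?_
        rw [lintegral_total p q (totb K B N q ε) (measurable_totb K B N q ε)]
        gcongr
        exact lintegral_totb_le K B N q hε TG hTG hG

/-! ### the slices -/

lemma slice_ft (p q : ℕ) (K B : ℝ) (N : ℕ) (ε : ℝ) (z : Fin (p + 1) → ℂ) :
    slice (ft p q K B N ε) z =
      mp (fun w : Fin (q + 1) → ℂ => F K B N (z 0) (w 0)) Fin.succ ε := by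
  funext w
  unfold slice ft mp Fn
  simp only [Fin.append_left, Fin.append_right]

lemma hasFDerivAt_sl {n : ℕ} (K B : ℝ) (N : ℕ) (z : ℂ) (w : Fin (n + 1) → ℂ) :
    HasFDerivAt (fun w : Fin (n + 1) → ℂ => F K B N z (w 0))
      (Fw K B N z (w 0) • ContinuousLinearMap.proj (R := ℂ) (φ := fun _ : Fin (n + 1) => ℂ) 0)
      w := by
  have h1 := hasDerivAt_F_w K B N z (w 0)
  have h2 : HasFDerivAt (fun w : Fin (n + 1) → ℂ => w 0)
      (ContinuousLinearMap.proj (R := ℂ) (φ := fun _ : Fin (n + 1) => ℂ) 0) w :=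
    (ContinuousLinearMap.proj (R := ℂ) (φ := fun _ : Fin (n + 1) => ℂ) 0).hasFDerivAt
  exact h1.comp_hasFDerivAt w h2

lemma fderiv_sl {n : ℕ} (K B : ℝ) (N : ℕ) (z : ℂ) (w v : Fin (n + 1) → ℂ) :
    fderiv ℂ (fun w : Fin (n + 1) → ℂ => F K B N z (w 0)) w v = Fw K B N z (w 0) * v 0 := by
  rw [(hasFDerivAt_sl K B N z w).fderiv]
  rfl

lemma det_slice (q : ℕ) {c : ℝ} (hc : 0 < c) (K B : ℝ) (N : ℕ) {ε : ℝ} (hε : 0 < ε)
    (z : ℂ) (w : Fin (q + 1) → ℂ) :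
    (metricMatrix c (mp (fun w : Fin (q + 1) → ℂ => F K B N z (w 0)) Fin.succ ε) w).det.re =
      dens q c ε (‖Fw K B N z (w 0)‖ ^ 2) (‖F K B N z (w 0)‖ ^ 2)
        (∑ i : Fin q, ‖w i.succ‖ ^ 2) := by
  have h1 : ∑ i : Fin (q + 1), ‖fderiv ℂ (fun w : Fin (q + 1) → ℂ => F K B N z (w 0)) w
      (Pi.single i 1)‖ ^ 2 = ‖Fw K B N z (w 0)‖ ^ 2 := by
    rw [Fin.sum_univ_succ]
    simp only [fderiv_sl]
    simp
  rw [← h1]
  refine det_mp (fun w : Fin (q + 1) → ℂ => F K B N z (w 0)) Fin.succ (Fin.succ_injective _) hε hc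
    w (hasFDerivAt_sl K B N z w).differentiableAt ?_
  intro i
  rw [fderiv_sl]
  simp

lemma measurable_split {q : ℕ} (h : ℂ → (Fin q → ℂ) → ℝ≥0∞)
    (hh : Measurable (fun x : ℂ × (Fin q → ℂ) => h x.1 x.2)) :
    Measurable (fun w : Fin (q + 1) → ℂ => h (w 0) (fun i => w i.succ)) := by
  have h3 : Measurable (fun w : Fin (q + 1) → ℂ => ((w 0, fun i => w i.succ) : ℂ × (Fin q → ℂ))) :=
    (measurable_pi_apply _).prodMk (measurable_pi_iff.mpr (fun i => measurable_pi_apply _))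
  exact hh.comp h3

lemma graphVol_slice_shell_le (q : ℕ) {c : ℝ} (hc : 0 < c) (K B : ℝ) (N : ℕ) {ε r Γ : ℝ}
    (hε : 0 < ε) (hε1 : ε ≤ 1) (hr : 0 < r) (z : ℂ) (h1 : ε * Γ ^ 2 ≤ 1)
    (h2 : Γ ^ 2 * (ε ^ 4 / (r ^ 2) ^ (q + 2)) ≤ 1)
    (hΓ : ∀ w0 ∈ Metric.ball (0:ℂ) 1, ‖Fw K B N z w0‖ ^ 2 ≤ Γ ^ 2) (EE : ℝ≥0∞)
    (hEE : Ew K B N z {w | r < ‖w‖ ∧ ‖w‖ < 1} ≤ EE) :
    graphVol c (mp (fun w : Fin (q + 1) → ℂ => F K B N z (w 0)) Fin.succ ε) (shell (q + 1) r) ≤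
      (q + 1).factorial * (volume (shell (q + 1) r) + ENNReal.ofReal (4 * AA q c) *
        (volume (Metric.ball (0:ℂ) 1) * (2 * HH q + JJ q (q + 1)) + JJ q (q + 2) * EE +
          volume (pd (q + 1)))) := by
  have hms' : Measurable (fun w : Fin (q + 1) → ℂ =>
      slb K B N q ε r z (w 0) (fun i => w i.succ)) :=
    measurable_split (slb K B N q ε r z) (measurable_slb K B N q ε r z)
  have hpt : ∀ w ∈ shell (q + 1) r, ENNReal.ofReal
      (metricMatrix c (mp (fun w : Fin (q + 1) → ℂ => F K B N z (w 0)) Fin.succ ε) w).det.re ≤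
      1 + ENNReal.ofReal (4 * AA q c) * (slb K B N q ε r z (w 0) (fun i => w i.succ) + 1) := by
    intro w hw
    have hw1 := mem_pd.mp (shell_subset _ _ hw)
    have hw2 : (fun i : Fin q => w i.succ) ∈ pd q := mem_pd.mpr (fun i => hw1 _)
    have hw0 : w 0 ∈ Metric.ball (0:ℂ) 1 := mem_ball_zero_iff.mpr (hw1 0)
    rw [det_slice q hc K B N hε z w]
    have hor : r < ‖w 0‖ ∨ r < ‖(fun i : Fin q => w i.succ)‖ := by
      obtain ⟨i, hi⟩ := exists_of_mem_shell hr hw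
      rcases Fin.eq_zero_or_eq_succ i with rfl | ⟨i', rfl⟩
      · exact Or.inl hi
      · exact Or.inr (hi.trans_le (norm_le_pi_norm (fun i : Fin q => w i.succ) i'))
    have h3 := slice_pointwise K B N q hε hr z (w 0) (fun i : Fin q => w i.succ) h1 h2
      (hΓ _ hw0) (hw1 0) hor
    have h4 := ofReal_dens_le q hc hε hε1 (γ := ‖Fw K B N z (w 0)‖ ^ 2)
      (t := ‖F K B N z (w 0)‖ ^ 2) (by positivity) (by positivity)
      (fun i : Fin q => w i.succ) hw2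
    refine h4.trans ?_
    exact add_le_add le_rfl (mul_le_mul_right h3 _)
  have hint : ∫⁻ w in pd (q + 1), slb K B N q ε r z (w 0) (fun i => w i.succ) ≤
      volume (Metric.ball (0:ℂ) 1) * (2 * HH q + JJ q (q + 1)) + JJ q (q + 2) * EE := by
    rw [lintegral_cons q _ hms']
    simp only [Fin.cons_zero, Fin.cons_succ]
    refine (lintegral_slb_le K B N q hε z).trans ?_
    gcongr
  have h5 : ∫⁻ w in shell (q + 1) r, (slb K B N q ε r z (w 0) (fun i => w i.succ) + 1) ≤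
      volume (Metric.ball (0:ℂ) 1) * (2 * HH q + JJ q (q + 1)) + JJ q (q + 2) * EE +
          volume (pd (q + 1)) := by
    refine (lintegral_mono_set (shell_subset _ _)).trans ?_
    rw [lintegral_add_left hms', setLIntegral_const, one_mul]
    exact add_le_add hint le_rfl
  have h6 : ∫⁻ w in shell (q + 1) r, ENNReal.ofReal
      (metricMatrix c (mp (fun w : Fin (q + 1) → ℂ => F K B N z (w 0)) Fin.succ ε) w).det.re ≤
      volume (shell (q + 1) r) + ENNReal.ofReal (4 * AA q c) *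
        ∫⁻ w in shell (q + 1) r, (slb K B N q ε r z (w 0) (fun i => w i.succ) + 1) := by
    refine (setLIntegral_mono' (measurableSet_shell _ _) hpt).trans (le_of_eq ?_)
    rw [lintegral_add_left measurable_const, setLIntegral_const, one_mul,
      lintegral_const_mul' _ _ ENNReal.ofReal_ne_top]
  unfold graphVol
  refine mul_le_mul_right (h6.trans ?_) _
  exact add_le_add le_rfl (mul_le_mul_right h5 _)

lemma le_graphVol_slice (q : ℕ) {c : ℝ} (hc : 0 < c) (K B : ℝ) (N : ℕ) {ε : ℝ}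
    (hε : 0 < ε) (z : ℂ) (hb : ∀ w0 ∈ Metric.ball (0:ℂ) 1, ε ^ 2 * (1 + ‖F K B N z w0‖ ^ 2) ≤ 1) :
    ENNReal.ofReal (c ^ (q + 1) * Real.pi ^ q / (q + 1) ^ (q + 2)) *
      Ew K B N z (Metric.ball 0 1) ≤
    graphVol c (mp (fun w : Fin (q + 1) → ℂ => F K B N z (w 0)) Fin.succ ε) (pd (q + 1)) := by
  unfold graphVol
  have hfac : (1 : ℝ≥0∞) ≤ ((q + 1).factorial : ℝ≥0∞) := by
    exact_mod_cast Nat.one_le_iff_ne_zero.mpr (Nat.factorial_ne_zero _)
  refine le_trans ?_ (le_mul_of_one_le_left bot_le hfac)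
  have hz : Measurable (fun w : ℂ => (z, w)) := measurable_const.prodMk measurable_id
  have mF : Measurable (fun w : Fin (q + 1) → ℂ => F K B N z (w 0)) :=
    ((measurable_F K B N).comp hz).comp (measurable_pi_apply 0)
  have mFw : Measurable (fun w : Fin (q + 1) → ℂ => Fw K B N z (w 0)) :=
    ((measurable_Fw K B N).comp hz).comp (measurable_pi_apply 0)
  have ms : Measurable (fun w : Fin (q + 1) → ℂ => ∑ i : Fin q, ‖w i.succ‖ ^ 2) :=
    Finset.measurable_sum _ (fun i _ => ((measurable_pi_apply _).norm.pow_const 2))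
  have hm : Measurable (fun w : Fin (q + 1) → ℂ => ENNReal.ofReal (c ^ (q + 1) *
      ‖Fw K B N z (w 0)‖ ^ 2 * ε ^ 4 /
      (∑ i : Fin q, ‖w i.succ‖ ^ 2 + ε ^ 2 * (1 + ‖F K B N z (w 0)‖ ^ 2)) ^ (q + 2))) := by
    apply Measurable.ennreal_ofReal
    exact (((mFw.norm.pow_const 2).const_mul _).mul_const _).div
      ((ms.add (((mF.norm.pow_const 2).const_add 1).const_mul _)).pow_const _)
  calc _ = ∫⁻ w0 in Metric.ball (0:ℂ) 1,
        ENNReal.ofReal (c ^ (q + 1) * Real.pi ^ q / (q + 1) ^ (q + 2)) * ew K B N z w0 := by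
        rw [lintegral_const_mul' _ _ ENNReal.ofReal_ne_top, Ew_eq_ew]
    _ ≤ ∫⁻ w0 in Metric.ball (0:ℂ) 1, ∫⁻ w in pd q, ENNReal.ofReal (c ^ (q + 1) *
        ‖Fw K B N z w0‖ ^ 2 * ε ^ 4 /
        (∑ i : Fin q, ‖w i‖ ^ 2 + ε ^ 2 * (1 + ‖F K B N z w0‖ ^ 2)) ^ (q + 2)) := by
        refine setLIntegral_mono' measurableSet_ball (fun w0 hw0 => ?_)
        exact inner_lower q hc hε (by positivity) (by positivity) (hb w0 hw0)
    _ = ∫⁻ w in pd (q + 1), ENNReal.ofReal (c ^ (q + 1) *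
      ‖Fw K B N z (w 0)‖ ^ 2 * ε ^ 4 /
      (∑ i : Fin q, ‖w i.succ‖ ^ 2 + ε ^ 2 * (1 + ‖F K B N z (w 0)‖ ^ 2)) ^ (q + 2)) := by
        rw [lintegral_cons q _ hm]
        simp only [Fin.cons_zero, Fin.cons_succ]
    _ ≤ _ := by
        refine setLIntegral_mono' (measurableSet_pd _) (fun w _ => ?_)
        rw [det_slice q hc K B N hε z w]
        exact ENNReal.ofReal_le_ofReal (le_dens q hc hε (by positivity) (by positivity)
          (Finset.sum_nonneg (fun _ _ => by positivity)))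

/-! ### the constants -/

/-- constant for the total volume -/
noncomputable def C1 (p q : ℕ) : ℝ≥0∞ :=
  volume (pd p) * (volume (Metric.ball (0:ℂ) 1) * volume (Metric.ball (0:ℂ) 1) *
    (HH q + JJ q (q + 1)) + HH q + JJ q (q + 2) *
      ((20 * sph univ + NNReal.pi) + (NNReal.pi * sph univ + NNReal.pi)))

/-- constant for the slices -/
noncomputable def C2 (q : ℕ) : ℝ≥0∞ :=
  volume (Metric.ball (0:ℂ) 1) * (2 * HH q + JJ q (q + 1)) + JJ q (q + 2) * (sph univ + 1) +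
    volume (pd (q + 1))

lemma C1_lt_top (p q : ℕ) : C1 p q < ⊤ := by
  have h1 := sph_univ_lt_top
  have h2 : volume (Metric.ball (0:ℂ) 1) < ⊤ := measure_ball_lt_top
  have h3 := HH_lt_top q
  have h4 : JJ q (q + 1) < ⊤ := JJ_lt_top (by omega)
  have h5 : JJ q (q + 2) < ⊤ := JJ_lt_top (by omega)
  unfold C1
  refine ENNReal.mul_lt_top (volume_pd_lt_top p) (ENNReal.add_lt_top.mpr ⟨ENNReal.add_lt_top.mpr
    ⟨ENNReal.mul_lt_top (ENNReal.mul_lt_top h2 h2) (ENNReal.add_lt_top.mpr ⟨h3, h4⟩), h3⟩,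
    ENNReal.mul_lt_top h5 (ENNReal.add_lt_top.mpr ⟨ENNReal.add_lt_top.mpr
      ⟨ENNReal.mul_lt_top (by norm_num) h1, ENNReal.coe_lt_top⟩, ENNReal.add_lt_top.mpr
      ⟨ENNReal.mul_lt_top ENNReal.coe_lt_top h1, ENNReal.coe_lt_top⟩⟩)⟩)

lemma C2_lt_top (q : ℕ) : C2 q < ⊤ := by
  have h1 := sph_univ_lt_top
  have h2 : volume (Metric.ball (0:ℂ) 1) < ⊤ := measure_ball_lt_top
  have h3 := HH_lt_top q
  have h4 : JJ q (q + 1) < ⊤ := JJ_lt_top (by omega)
  have h5 : JJ q (q + 2) < ⊤ := JJ_lt_top (by omega)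
  unfold C2
  exact ENNReal.add_lt_top.mpr ⟨ENNReal.add_lt_top.mpr ⟨ENNReal.mul_lt_top h2
    (ENNReal.add_lt_top.mpr ⟨ENNReal.mul_lt_top (by norm_num) h3, h4⟩),
    ENNReal.mul_lt_top h5 (ENNReal.add_lt_top.mpr ⟨h1, ENNReal.one_lt_top⟩)⟩,
    volume_pd_lt_top _⟩

/-- choice of `ε` -/
lemma exists_eps (Γ G0 r : ℝ) (q : ℕ) (hG0 : 0 ≤ G0) (hr : 0 < r) : ∃ ε : ℝ, 0 < ε ∧ ε ≤ 1 ∧
    ε * (1 + Γ ^ 2) ≤ 1 ∧ Γ ^ 2 * (ε ^ 4 / (r ^ 2) ^ (q + 2)) ≤ 1 ∧ ε * G0 ≤ 1 := by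
  set D : ℝ := 1 + Γ ^ 2 + Γ ^ 2 / (r ^ 2) ^ (q + 2) + G0 with hD
  have hr' : 0 ≤ Γ ^ 2 / (r ^ 2) ^ (q + 2) := by positivity
  have hD1 : 1 ≤ D := by
    have := sq_nonneg Γ
    linarith
  have hD0 : 0 < D := by linarith
  have hle : ∀ x : ℝ, x ≤ D → D⁻¹ * x ≤ 1 := by
    intro x hx
    rw [inv_mul_le_iff₀ hD0, mul_one]
    exact hx
  have h1 : D⁻¹ ≤ 1 := inv_le_one_of_one_le₀ hD1
  refine ⟨D⁻¹, by positivity, h1, hle _ (by linarith), ?_,
    hle _ (by have := sq_nonneg Γ; linarith)⟩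
  calc Γ ^ 2 * (D⁻¹ ^ 4 / (r ^ 2) ^ (q + 2)) = D⁻¹ ^ 3 * (D⁻¹ * (Γ ^ 2 / (r ^ 2) ^ (q + 2))) := by
        ring
    _ ≤ 1 * 1 := by
        apply mul_le_mul (pow_le_one₀ (by positivity) h1)
          (hle _ (by have := sq_nonneg Γ; linarith)) (by positivity) zero_le_one
    _ = 1 := one_mul 1

lemma le_ofReal_of {A R : ℝ} (hA : 0 ≤ A) (m : ℕ) (V X : ℝ≥0∞) (hV : V ≠ ⊤) (hX : X ≠ ⊤)
    (h : m * V.toReal + m * (4 * A * X.toReal) ≤ R) :
    m * (V + ENNReal.ofReal (4 * A) * X) ≤ ENNReal.ofReal R := by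
  refine le_trans (le_of_eq ?_) (ENNReal.ofReal_le_ofReal h)
  rw [ENNReal.ofReal_add (by positivity) (by positivity),
    ENNReal.ofReal_mul (by positivity : (0:ℝ) ≤ (m:ℝ)),
    ENNReal.ofReal_mul (by positivity : (0:ℝ) ≤ (m:ℝ)),
    ENNReal.ofReal_mul (p := 4 * A) (by positivity),
    ENNReal.ofReal_toReal hV, ENNReal.ofReal_toReal hX, ENNReal.ofReal_natCast, mul_add]

theorem result (m k : ℕ) (hm : 1 ≤ m) (hk : 1 ≤ k) : ∃ C : ℝ, 0 < C ∧ ∀ r c R : ℝ,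
    0 < r → r < 1 → 0 < c →
    (m + k).factorial * (volume (shell (m + k) r)).toReal + C * ((1 + c) ^ k - 1) ≤ R →
    ∃ (a : ℝ) (f : ℕ → (Fin (m + k) → ℂ) → (Fin k → ℂ)) (z : ℕ → (Fin m → ℂ)),
      0 < a ∧
      (∀ j, MemFR m k c r R (f j)) ∧
      (∀ j, graphVol c (f j) (polydisk (m + k) 1) ≤ ENNReal.ofReal a) ∧
      (∀ j, z j ∈ polydisk m 1) ∧
      Tendsto (fun j => graphVol c (slice (f j) (z j)) (polydisk k 1)) atTop (𝓝 ⊤) := by
  obtain ⟨p, rfl⟩ : ∃ p, m = p + 1 := ⟨m - 1, by omega⟩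
  obtain ⟨q, rfl⟩ : ∃ q, k = q + 1 := ⟨k - 1, by omega⟩
  set n : ℕ := p + 1 + (q + 1) with hn
  refine ⟨4 * (n.factorial * (C1 p q).toReal) + 4 * ((q + 1).factorial * (C2 q).toReal) + 1,
    by positivity, ?_⟩
  intro r c R hr0 hr1 hc hR1
  have hR2 := (add_le_add_left (volume_shell_le (p + 1) (q + 1) hr0 hr1) _).trans hR1
  have hA := AA_pos q hc
  have hAdef : (1 + c) ^ (q + 1) - 1 = AA q c := rfl
  rw [hAdef] at hR1 hR2
  choose Kf hKf using fun j : ℕ => exists_data r hr0 (j + 1) (by omega)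
  choose wz hw1 hw2 using fun j : ℕ => exists_big_slice r hr0 hr1 (j + 1) (Kf j) (hKf j)
  choose Γ hΓ0 hΓ using fun j : ℕ => exists_bound (Kf j) (4 / r) (N := j + 1) (by omega)
  have hGt : ∀ j : ℕ, Gint (Kf j) (4 / r) (j + 1) < ⊤ := fun j => Gint_lt_top _ _ (by omega)
  choose ε hε0 hε1 hεΓ hεr hεG using fun j : ℕ =>
    exists_eps (Γ j) (Gint (Kf j) (4 / r) (j + 1)).toReal r q ENNReal.toReal_nonneg hr0
  have hεΓ' : ∀ j, ε j * Γ j ^ 2 ≤ 1 := fun j => by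
    have := hεΓ j
    have := (hε0 j).le
    nlinarith
  have hGj : ∀ j, ENNReal.ofReal (ε j) * Gint (Kf j) (4 / r) (j + 1) ≤ 1 := by
    intro j
    rw [← ENNReal.ofReal_toReal (hGt j).ne, ← ENNReal.ofReal_mul (hε0 j).le, ← ENNReal.ofReal_one]
    exact ENNReal.ofReal_le_ofReal (hεG j)
  have hbound : ∀ (j : ℕ) (S : Set (Fin (p + 1 + (q + 1)) → ℂ)), MeasurableSet S →
      S ⊆ pd (p + 1 + (q + 1)) →
      graphVol c (ft p q (Kf j) (4 / r) (j + 1) (ε j)) S ≤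
        n.factorial * (volume S + ENNReal.ofReal (4 * AA q c) * C1 p q) := by
    intro j S hS hsub
    exact graphVol_total_le p q hc (Kf j) (4 / r) (j + 1) (hε0 j) (hε1 j) S hS hsub _
      (total_G r hr0 hr1 (j + 1) (Kf j) (hKf j)) (hGj j)
  have hvs : ∀ n' : ℕ, volume (shell n' r) ≠ ⊤ := fun n' =>
    ne_top_of_le_ne_top (volume_pd_lt_top n').ne (measure_mono (shell_subset n' r))
  refine ⟨(n.factorial * (volume (pd n) + ENNReal.ofReal (4 * AA q c) * C1 p q)).toReal + 1,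
    fun j => ft p q (Kf j) (4 / r) (j + 1) (ε j), fun j => Pi.single 0 (wz j),
    by positivity, ?_, ?_, ?_, ?_⟩
  · intro j
    refine ⟨fun x hx => ?_, ?_, ?_⟩
    · rw [polydisk_one] at hx
      exact (differentiableAt_ft p q _ _ _ _ x hx).differentiableWithinAt
    · refine (hbound j _ (measurableSet_shell _ _) (shell_subset _ _)).trans ?_
      refine le_ofReal_of hA.le _ _ _ (hvs _) (C1_lt_top p q).ne (le_trans ?_ hR1)
      have e1 : 0 ≤ (q + 1).factorial * (C2 q).toReal * AA q c := by positivity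
      nlinarith
    · intro z hz
      rw [slice_ft]
      have hz0 : z 0 ∈ Metric.ball (0:ℂ) 1 := mem_ball_zero_iff.mpr (hz 0)
      have h3 : graphVol c (mp (fun w : Fin (q + 1) → ℂ => F (Kf j) (4 / r) (j + 1) (z 0) (w 0))
          Fin.succ (ε j)) (shell (q + 1) r) ≤ (q + 1).factorial * (volume (shell (q + 1) r) +
            ENNReal.ofReal (4 * AA q c) * C2 q) := by
        refine graphVol_slice_shell_le q hc (Kf j) (4 / r) (j + 1) (hε0 j) (hε1 j) hr0 (z 0)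
          (hεΓ' j) (hεr j) ?_ (sph univ + 1)
          (Ew_annulus r hr0 hr1 (j + 1) (Kf j) (hKf j) (z 0))
        intro w0 hw0
        exact pow_le_pow_left₀ (norm_nonneg _) (hΓ j (z 0) hz0 w0 hw0).2.1 2
      refine h3.trans ?_
      refine le_ofReal_of hA.le _ _ _ (hvs _) (C2_lt_top q).ne (le_trans ?_ hR2)
      have e1 : 0 ≤ n.factorial * (C1 p q).toReal * AA q c := by positivity
      nlinarith
  · intro j
    rw [polydisk_one]
    refine (hbound j _ (measurableSet_pd _) Subset.rfl).trans ?_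
    have hfin : n.factorial * (volume (pd n) + ENNReal.ofReal (4 * AA q c) * C1 p q) ≠ ⊤ :=
      ENNReal.mul_ne_top (ENNReal.natCast_ne_top _) (ENNReal.add_ne_top.mpr
        ⟨(volume_pd_lt_top _).ne, ENNReal.mul_ne_top ENNReal.ofReal_ne_top (C1_lt_top p q).ne⟩)
    rw [ENNReal.le_ofReal_iff_toReal_le hfin (by positivity)]
    linarith
  · intro j i
    have h1 := mem_ball_zero_iff.mp (hw1 j)
    rcases eq_or_ne i 0 with rfl | hi
    · simpa using h1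
    · simp [Pi.single_eq_of_ne hi]
  · set κ : ℝ≥0∞ := ENNReal.ofReal (c ^ (q + 1) * Real.pi ^ q / (q + 1) ^ (q + 2)) with hκ
    have hκ0 : κ ≠ 0 := by
      rw [hκ, ne_eq, ENNReal.ofReal_eq_zero, not_le]
      positivity
    have hge : ∀ j : ℕ, κ * (((j + 1 : ℕ) : ℝ≥0∞) * sph (Metric.ball (0:ℂ) 1)) ≤
        graphVol c (slice (ft p q (Kf j) (4 / r) (j + 1) (ε j)) (Pi.single 0 (wz j)))
          (polydisk (q + 1) 1) := by
      intro j
      rw [slice_ft, polydisk_one, Pi.single_eq_same]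
      refine le_trans ?_ (le_graphVol_slice q hc (Kf j) (4 / r) (j + 1) (hε0 j) (wz j) ?_)
      · exact mul_le_mul_right (hw2 j) _
      · intro w0 hw0
        have h3 := (hΓ j (wz j) (hw1 j) w0 hw0).1
        have h4 : ‖F (Kf j) (4 / r) (j + 1) (wz j) w0‖ ^ 2 ≤ Γ j ^ 2 :=
          pow_le_pow_left₀ (norm_nonneg _) h3 2
        have h5 := hεΓ j
        have h6 := hε1 j
        have h7 := (hε0 j).le
        have h8 : ε j ^ 2 ≤ ε j := by nlinarith
        calc ε j ^ 2 * (1 + ‖F (Kf j) (4 / r) (j + 1) (wz j) w0‖ ^ 2) ≤ ε j * (1 + Γ j ^ 2) :=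
              mul_le_mul h8 (by linarith) (by positivity) h7
          _ ≤ 1 := h5
    have hlim : Tendsto (fun j : ℕ => κ *
        (((j + 1 : ℕ) : ℝ≥0∞) * sph (Metric.ball (0:ℂ) 1))) atTop (𝓝 ⊤) := by
      have h1 : Tendsto (fun j : ℕ => ((j + 1 : ℕ) : ℝ≥0∞)) atTop (𝓝 ⊤) :=
        ENNReal.tendsto_nat_nhds_top.comp (tendsto_add_atTop_nat 1)
      have h2 : Tendsto (fun j : ℕ => ((j + 1 : ℕ) : ℝ≥0∞) * sph (Metric.ball (0:ℂ) 1)) atTop
          (𝓝 (⊤ * sph (Metric.ball (0:ℂ) 1))) :=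
        ENNReal.Tendsto.mul_const h1 (Or.inl (by norm_num))
      rw [ENNReal.top_mul sph_ball_pos.ne'] at h2
      have h3 := ENNReal.Tendsto.const_mul (a := κ) h2 (Or.inl (by norm_num))
      rwa [ENNReal.mul_top hκ0] at h3
    exact tendsto_nhds_top_mono hlim (Eventually.of_forall hge)

end Pool.Agent.Results.MP_c848f8_an.SliceBlowupAll
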